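import Pool.Agent.W5h93.EX.OrdMain

/-!
# Ordinary places and common zeros of one additive invariant

Let `k` be a number field. For a smooth projective variety `X` over `k`, an integer `c ≥ 0` and a place
`v` of good reduction let `δ_v(X)(c)` be the sum of the squares of the Hodge-Tate weights of
`H^(2c)(X) ⊕ H^(2c+1)(X)` minus the sum of the squares of the Newton slopes at `v`. As the Newton polygon
lies above the Hodge polygon and has the same end points, `δ_v(X)(c) ≥ 0`, and `δ_v(X)(c) = 0` if and
only if `v` is ordinary for `H^(2c)(X)` and for `H^(2c+1)(X)`. As the end points are the same, Tate twists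
do not change the difference of the sums of squares; so the Laurent polynomials `∑ δ_v(X)(c) L^c` are
compatible with blow-ups, and they extend, by the theorem of Bittner, to an additive invariant of all
separated schemes of finite type, with coefficients in the functions of `v` modulo the functions with
finite support.

1. If every variety and every degree has infinitely many ordinary places then every finite family of
   varieties and degrees has infinitely many common ordinary places.
2. Every finite family of varieties of dimension at most `n` has infinitely many common ordinary places
   if and only if for every finite family of trilinear forms `T` over `k` with a block of at most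
   `n + 2` variables and of integers `c` the functions `v ↦ δ_v(T = 1)(c)` have infinitely many common
   zeros.
3. The conjecture (Q1) for all smooth projective varieties over `k` is equivalent to: for all finite
   families of trilinear forms `T` over `k` and of integers `c` the functions `v ↦ δ_v(T = 1)(c)` have
   infinitely many common zeros.

The general case of Q1 (intersection cohomology of singular projective varieties) follows from the case
of smooth projective varieties by the decomposition theorem.
-/

set_option autoImplicit false

open CategoryTheory AlgebraicGeometry Pool.Agent.Y116.UV Pool.Agent.W5h93.EV Pool.Agent.W5h93.EX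

namespace Pool.Agent.Results.MP_db07cb_ag.CommonZeros

/-- **Ordinary places and common zeros.** -/
theorem result (k : Type) [Field k] [NumberField k] (ι : Type) [Infinite ι] (D : SlopeData k ι)
    (Q : Sch k → Prop) (hQ : IsClass Q) (hD : D.IsSlope Q) (δ : Sch k → ℤ → ι → ℚ)
    (hδ : D.IsDefect Q δ) :
    (D.Infinite Q ↔ ∀ L : List (Sch k × ℕ), (∀ x ∈ L, Q x.1) →
      {v | ∀ x ∈ L, D.Ord x.1 x.2 v}.Infinite) ∧
    (∀ n, (CommonZeros δ (Form.Small (n + 2)) → D.Common Q n) ∧
      (ModelsIn Q n → (D.Common Q n ↔ CommonZeros δ (Form.Small (n + 2))))) ∧
    (CommonZeros δ (fun _ => True) → D.Infinite Q) ∧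
    ((∀ n, ModelsIn Q n) → (D.Infinite Q ↔ CommonZeros δ fun _ => True)) :=
  ⟨infinite_iff hD, fun _ => ⟨common_of_zeros hQ hD hδ, fun hM =>
    ⟨zeros_of_common hQ hD hδ hM, common_of_zeros hQ hD hδ⟩⟩,
    (infinite_iff_zeros hQ hD hδ).1, (infinite_iff_zeros hQ hD hδ).2⟩

end Pool.Agent.Results.MP_db07cb_ag.CommonZeros
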