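import Mathlib
import Pool.Agent.W5h2.OR.Main
import Pool.Agent.W5h23.OnePlace.Main

/-!
# Weak forms and strong forms of the ordinariness conjecture are equivalent to it
-/

set_option autoImplicit false

open Filter Topology Pool.Agent.W5h2.OR Pool.Agent.W5h23.OnePlace

namespace Pool.Agent.Results.MP_db07cb_ag.SlopeAmplification

theorem result {ι Var : Type} (T : Slopes ι Var) :
    (∀ S : Set (Set ι), Large S →
      (∀ X, ({v | T.Ord X v} ∈ S ↔ T.DefectPow S X) ∧ ({v | T.Ord X v} ∈ S ↔ T.WrongPow S X) ∧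
        ({v | T.Ord X v} ∈ S ↔ T.ClosePow S X)) ∧
      (T.Q1 S ↔ T.AllOrd S) ∧ (T.Q1 S ↔ T.SmallDefect S) ∧ (T.Q1 S ↔ T.FewWrong S) ∧
      (T.Q1 S ↔ T.Close S)) ∧
    (Infinite ι → Large {A : Set ι | A.Infinite}) ∧
    (∀ (E : ℕ → Finset ι) (c : ℝ), c ≤ 1 → Tendsto (fun x => (E x).card) atTop atTop →
      Large (UpperDensity E c)) ∧
    (Countable Var → Infinite ι → (T.Q1 {A | A.Infinite} ↔ T.Universal {A | A.Infinite})) ∧
    (Countable Var → ∀ (E : ℕ → Finset ι) (c : ℝ), c ≤ 1 →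
      Tendsto (fun x => (E x).card) atTop atTop →
      (T.Q1 (UpperDensity E c) ↔ T.Universal (UpperDensity E c))) ∧
    (Infinite ι → ∀ good : Var → Set ι, IsGood T good →
      (T.Q1 {A | A.Infinite} ↔ OneEach T good) ∧ (T.Q1 {A | A.Infinite} ↔ OneAll T good) ∧
      (T.Q1 {A | A.Infinite} ↔ OneDefect T good) ∧ (T.Q1 {A | A.Infinite} ↔ OneWrong T good) ∧
      (T.Q1 {A | A.Infinite} ↔ OneNear T good)) := by
  refine ⟨fun S hS => ⟨fun X => ⟨ord_iff_defectPow T hS X, ord_iff_wrongPow T hS X,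
    ord_iff_closePow T hS X⟩, q1_iff_allOrd T hS,
    (q1_iff_allOrd T hS).trans (allOrd_iff_smallDefect T hS),
    (q1_iff_allOrd T hS).trans (allOrd_iff_fewWrong T hS),
    (q1_iff_allOrd T hS).trans (allOrd_iff_close T hS)⟩, fun _ => large_infinite,
    fun E c hc hE => large_upperDensity hc hE,
    fun _ _ => q1_iff_universal T large_infinite witnessed_infinite,
    fun _ E c hc hE => q1_iff_universal T (large_upperDensity hc hE)
      (witnessed_upperDensity E c), fun _ good hg => main T good hg⟩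

end Pool.Agent.Results.MP_db07cb_ag.SlopeAmplification
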