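import Pool.Agent.W850.Ord.LowDens
import Pool.Agent.W5h91.Ord.Slopes

/-!
# Ordinary primes for all objects with a tensor construction in a large tensor category

`K₀` is a number field.  The generators: for every `n : ℕ` a finite extension `K n` of `K₀` and finitely
many pure motives `A n i` over `K n` with multiplication by totally real or CM fields, each with its own
finite set `S n i` of bad residue characteristics (over `K n` the `ℓ n`-adic monodromy groups are
connected, for one prime `ℓ n`), such that some element `γ` of the Galois group of `K n` satisfies the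
orbit condition `Admissible` for all `A n i` (the identity will do if the defects are at most two).  For
example, `A n` are the first `n` members of an enumeration of the following motives over finite extensions
of `K₀`, considered over a large finite extension `K n`: motives of K3 type with multiplication by a
totally real or CM field (Hodge numbers `1, n - 2, 1` for one embedding, or for two conjugate embeddings
`1, n - 1` and `n - 1, 1`, and a single slope for all other embeddings), elliptic curves, abelian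
surfaces, abelian varieties of Picard type (signature `(n - 1, 1)` at one complex place, definite at the
others), and CM motives.

Let `X` be a projective variety over `K₀` (or a finite set of varieties) and `V i ℓ'` its intersection
cohomology groups (`i` in a finite set `ν`), strictly compatible outside a finite set `T` of residue
characteristics with Frobenius polynomials `F i v₀`, and `H i` their Hodge-Tate slopes.

Hypothesis (`IsRoot`): over `K n` the object `V i` is a direct sum of finitely many objects `R j` with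
rational coefficients (Frobenius polynomials in `ℤ[X]`) which satisfy Mazur's inequality, and for each of
them *some* tensor construction with finite kernel, for example a tensor power, an exterior power
`Λ^a (R j)` with `0 < a < r j` or a symmetric power, is up to a Tate twist a direct summand of a direct
sum of tensor products of pieces of the `A n i`.  In general neither `V i` nor the `R j` are in this
tensor category themselves.  Examples: the `H¹` of the Kuga-Satake abelian varieties of all motives of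
K3 type, also with multiplication by a totally real field, and of the abelian fourfolds of Mumford's
type, and everything in the tensor category generated by the pieces and such examples.

Theorem.
1. If the hypothesis holds for one `n`, then the places of `K₀` at which for all `i`, all `ℓ'` and all
   embeddings of the algebraic numbers the Newton polygon of `V i ℓ'` is the Hodge-Tate polygon have positive
   lower density: at least the proportion of the admissible elements divided by `[K n : K₀]`.
2. There is *one* infinite set `P` of places of `K₀` which works for *all* such `X`: if the hypothesis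
   holds for all large `n` then all but finitely many places in `P` are ordinary for `X`.  The lower
   density of `P` is at least `c`, if `c` is at most the proportion of the admissible elements divided by
   `[K n : K₀]`, for every `n`.
-/

set_option autoImplicit false

namespace Pool.Agent.Results.MP_db07cb_ag.TensorConstructions

open NumberField IsDedekindDomain Polynomial Filter Topology
open Pool.Agent.W401.Cheb Pool.Agent.W528.Ord Pool.Agent.R915.Ord Pool.Agent.W850.Ord
open Pool.Agent.W5h91.Ord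

/-- The `V ℓ'` are strictly compatible: at the places of degree one outside `T` the characteristic
polynomial of the geometric Frobenius element (the inverse of `γ`) is `F v`. -/
def StrictlyCompatible {K₀ : Type} [Field K₀] [NumberField K₀] (T : Finset ℕ) {r : ℕ}
    (V : ∀ (ℓ' : ℕ) [Fact ℓ'.Prime], GK K₀ →* Matrix.GeneralLinearGroup (Fin r) ℚ_[ℓ'])
    (F : HeightOneSpectrum (𝓞 K₀) → Polynomial ℤ) : Prop :=
  ∀ (ℓ' : ℕ) [Fact ℓ'.Prime] (v₀ : HeightOneSpectrum (𝓞 K₀)), MultSystem.IsDeg1 T v₀ →
    Ideal.absNorm v₀.asIdeal ≠ ℓ' → ∀ γ : GK K₀, IsFrob v₀ γ →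
      (V ℓ' γ⁻¹ : Matrix (Fin r) (Fin r) ℚ_[ℓ']).charpoly = (F v₀).map (Int.castRingHom ℚ_[ℓ'])

/-- `v₀` has degree one, and for every prime `ℓ'` different from the residue characteristic `p = N v₀`
and every embedding `τ` of the field of algebraic numbers the Newton polygon of `V ℓ'` at `v₀` has the
slopes `H`. -/
def Ordinary {K₀ : Type} [Field K₀] [NumberField K₀] {r : ℕ}
    (V : ∀ (ℓ' : ℕ) [Fact ℓ'.Prime], GK K₀ →* Matrix.GeneralLinearGroup (Fin r) ℚ_[ℓ'])
    (H : Multiset ℕ) (v₀ : HeightOneSpectrum (𝓞 K₀)) : Prop :=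
  ∃ (p : ℕ) (_ : Fact p.Prime), Ideal.absNorm v₀.asIdeal = p ∧
    ∀ (ℓ' : ℕ) [Fact ℓ'.Prime], p ≠ ℓ' → ∀ γ : GK K₀, IsFrob v₀ γ →
      ∀ τ : algebraicClosure ℚ (PadicAlgCl ℓ') →+* PadicAlgCl p,
        NewtonTau (V ℓ' γ⁻¹ : Matrix (Fin r) (Fin r) ℚ_[ℓ']) τ H

/-- `F` is the characteristic polynomial of an endomorphism of a vector space of dimension `r`, with the
eigenvalues `α i`, and `G` is the characteristic polynomial of the induced endomorphism of the tensor
construction with the weights `W`. -/
def IsConstructed {r : ℕ} (W : Multiset (Fin r → ℕ)) (F G : ℤ[X]) : Prop :=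
  ∃ α : Fin r → AlgebraicClosure ℚ,
    (F.map (Int.castRingHom (AlgebraicClosure ℚ))).roots = Finset.univ.val.map α ∧
    (G.map (Int.castRingHom (AlgebraicClosure ℚ))).roots = W.map fun w => ∏ i, α i ^ w i

/-- Over `K` the object with the Frobenius polynomials `F` and the Hodge slopes `H` is the direct sum of
objects with the Frobenius polynomials `R j` and the Hodge slopes `h j` (in increasing order), which
satisfy Mazur's inequality; for each `j` a tensor construction of this object, with the Frobenius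
polynomials `G j`, is up to a Tate twist a direct summand of a direct sum of tensor products of pieces
of the `A i`. -/
def IsRoot {K₀ K : Type} [Field K₀] [NumberField K₀] [Field K] [NumberField K] [Algebra K₀ K]
    {ℓ : ℕ} [Fact ℓ.Prime] {ι : Type} (A : ι → MotSystem K ℓ) (T : Finset ℕ)
    (F : HeightOneSpectrum (𝓞 K₀) → ℤ[X]) (H : Multiset ℕ) : Prop :=
  ∃ (s : ℕ) (r : Fin s → ℕ) (h : ∀ j, Fin (r j) → ℕ) (R G : Fin s → HeightOneSpectrum (𝓞 K) → ℤ[X])
    (W : ∀ j, Multiset (Fin (r j) → ℕ)),
    H = ∑ j, Finset.univ.val.map (h j) ∧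
    (∀ (v₀ : HeightOneSpectrum (𝓞 K₀)) (v : HeightOneSpectrum (𝓞 K)),
      v.asIdeal.comap (algebraMap (𝓞 K₀) (𝓞 K)) = v₀.asIdeal → MultSystem.IsDeg1 T v →
        F v₀ = ∏ j, R j v) ∧
    ∀ j, Monotone (h j) ∧ IsConstruction (W j) ∧
      (∀ v : HeightOneSpectrum (𝓞 K), MultSystem.IsDeg1 T v →
        MazurAt (Ideal.absNorm v.asIdeal) (R j v) (h j) ∧ IsConstructed (W j) (R j v) (G j v)) ∧
      IsSummand A T (G j) ((W j).map fun w => ∑ i, w i * h j i)

theorem ordinary_of {K₀ : Type} [Field K₀] [NumberField K₀] (T : Finset ℕ) {r : ℕ}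
    (V : ∀ (ℓ' : ℕ) [Fact ℓ'.Prime], GK K₀ →* Matrix.GeneralLinearGroup (Fin r) ℚ_[ℓ'])
    (F : HeightOneSpectrum (𝓞 K₀) → Polynomial ℤ) (H : Multiset ℕ) (hV : StrictlyCompatible T V F)
    (v₀ : HeightOneSpectrum (𝓞 K₀)) (hv : MultSystem.IsDeg1 T v₀)
    (hN : NewtonSlopes (Ideal.absNorm v₀.asIdeal) (F v₀) H) : Ordinary V H v₀ := by
  have hN' := hN
  obtain ⟨hp, -⟩ := hN
  refine ⟨Ideal.absNorm v₀.asIdeal, hp, rfl, ?_⟩
  intro ℓ' _ hne γ hγ τ
  exact newtonTau_of _ τ _ (F v₀) (hV ℓ' v₀ hv hne γ hγ) hN'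

/-- if a tensor construction is ordinary then the object is ordinary -/
theorem newton_of_constructed {p r : ℕ} {W : Multiset (Fin r → ℕ)} (hW : IsConstruction W) {F G : ℤ[X]}
    {h : Fin r → ℕ} (hh : Monotone h) (hM : MazurAt p F h) (hFG : IsConstructed W F G)
    (hG : NewtonSlopes p G (W.map fun w => ∑ i, w i * h i)) :
    NewtonSlopes p F (Finset.univ.val.map h) := by
  obtain ⟨hp, hG⟩ := hG
  obtain ⟨α, h1, h2⟩ := hFG
  refine ⟨hp, ?_⟩
  have : Algebra.IsAlgebraic ℚ (AlgebraicClosure ℚ) := AlgebraicClosure.isAlgebraic ℚ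
  set τ : AlgebraicClosure ℚ →+* PadicAlgCl p :=
    (IsAlgClosed.lift (R := ℚ) (S := AlgebraicClosure ℚ) (M := PadicAlgCl p)).toRingHom with hτ
  have key : ∀ P : ℤ[X], (P.map (Int.castRingHom (PadicAlgCl p))).roots =
      (P.map (Int.castRingHom (AlgebraicClosure ℚ))).roots.map τ := by
    intro P
    rw [← Splits.roots_map (IsAlgClosed.splits _), Polynomial.map_map]
    congr 2
    exact RingHom.ext_int _ _
  refine slopes_eq hW F h hh hM (fun i => τ (α i)) ?_ ?_
  · rw [key, h1, Multiset.map_map]
    rfl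
  · rw [key, h2, Multiset.map_map, Multiset.map_map, Multiset.map_map] at hG
    have e1 : (((fun y : PadicAlgCl p => ‖y‖) ∘ τ) ∘ fun w : Fin r → ℕ => ∏ i, α i ^ w i) =
        fun w => ‖∏ i, τ (α i) ^ w i‖ := by
      funext w
      simp only [Function.comp, map_prod, map_pow]
    rw [e1] at hG
    exact hG

/-- direct sums -/
theorem newton_prod {p s : ℕ} [hp : Fact p.Prime] (R : Fin s → ℤ[X]) (H : Fin s → Multiset ℕ)
    (h0 : ∀ j, (R j).Monic) (h : ∀ j, NewtonSlopes p (R j) (H j)) :
    NewtonSlopes p (∏ j, R j) (∑ j, H j) := by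
  refine ⟨hp, ?_⟩
  classical
  suffices hs : ∀ t : Finset (Fin s),
      (((∏ j ∈ t, R j).map (Int.castRingHom (PadicAlgCl p))).roots.map fun y => ‖y‖) =
        (∑ j ∈ t, H j).map fun a => (1 / (p : ℝ)) ^ a from hs Finset.univ
  intro t
  induction t using Finset.induction_on with
  | empty => simp
  | insert j t hj ih =>
    obtain ⟨_, hj'⟩ := h j
    have hne : (R j).map (Int.castRingHom (PadicAlgCl p)) *
        (∏ j ∈ t, R j).map (Int.castRingHom (PadicAlgCl p)) ≠ 0 :=
      mul_ne_zero ((h0 j).map _).ne_zero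
        ((monic_prod_of_monic t R fun j _ => h0 j).map _).ne_zero
    rw [Finset.prod_insert hj, Finset.sum_insert hj, Polynomial.map_mul, roots_mul hne,
      Multiset.map_add, Multiset.map_add, ih, hj']

/-- the object is ordinary at the places below the good places of `K` -/
theorem newton_of_root {K₀ K : Type} [Field K₀] [NumberField K₀] [Field K] [NumberField K]
    [Algebra K₀ K] {ℓ : ℕ} [Fact ℓ.Prime] {ι : Type} [Fintype ι] (A : ι → MotSystem K ℓ)
    (χ : GK K →* (PadicAlgCl ℓ)ˣ) (S : ι → Finset ℕ) (hA : ∀ i, (A i).IsMotive χ (S i)) {T : Finset ℕ}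
    {F : HeightOneSpectrum (𝓞 K₀) → ℤ[X]} {H : Multiset ℕ} (hF : IsRoot A T F H)
    (v₀ : HeightOneSpectrum (𝓞 K₀)) (v : HeightOneSpectrum (𝓞 K))
    (h0 : v.asIdeal.comap (algebraMap (𝓞 K₀) (𝓞 K)) = v₀.asIdeal) (hv : Good A S v)
    (hvT : Ideal.absNorm v.asIdeal ∉ T) : NewtonSlopes (Ideal.absNorm v₀.asIdeal) (F v₀) H := by
  obtain ⟨s, r, h, R, G, W, hH, hFR, hall⟩ := hF
  have hv1 : MultSystem.IsDeg1 T v := ⟨hv.1, hvT⟩
  rw [under_norm v hv.1 v₀ h0, hH, hFR v₀ v h0 hv1]
  have : Fact (Ideal.absNorm v.asIdeal).Prime := ⟨hv.1⟩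
  apply newton_prod
  · intro j
    exact ((hall j).2.2.1 v hv1).1.1
  · intro j
    obtain ⟨hmono, hW, hRG, hsum⟩ := hall j
    obtain ⟨hM, hC⟩ := hRG v hv1
    refine newton_of_constructed hW hmono hM hC ?_
    have h0' : v.asIdeal.comap (algebraMap (𝓞 K) (𝓞 K)) = v.asIdeal := by
      rw [Algebra.algebraMap_self]
      exact Ideal.comap_id _
    exact newton_of_good' A χ S hA hsum v v h0' hv hvT

theorem result (K₀ : Type) [Field K₀] [NumberField K₀]
    -- the fields of definition and the generators
    (K : ℕ → Type) [∀ n, Field (K n)] [∀ n, NumberField (K n)] [∀ n, Algebra K₀ (K n)]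
    (ℓ : ℕ → ℕ) [∀ n, Fact (ℓ n).Prime] (ι : ℕ → Type) [∀ n, Fintype (ι n)]
    (A : ∀ n, ι n → MotSystem (K n) (ℓ n)) (χ : ∀ n, GK (K n) →* (PadicAlgCl (ℓ n))ˣ)
    (S : ∀ n, ι n → Finset ℕ) (hA : ∀ n i, (A n i).IsMotive (χ n) (S n i))
    -- the orbit condition
    (hγ : ∀ n, ∃ γ : GK (K n), ∀ i, (A n i).Admissible γ)
    (c : ℝ) (hc : ∀ n, c ≤ MotSystem.admProportion (A n) / (Module.finrank K₀ (K n) : ℝ)) :
    ∃ P : Set (HeightOneSpectrum (𝓞 K₀)), P.Infinite ∧ c ≤ lowerDensity (fun v₀ => v₀ ∈ P) ∧
      -- all varieties `X`, with the cohomology groups `V i`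
      ∀ (T : Finset ℕ) (ν : Type) [Finite ν] (r : ν → ℕ)
        (V : ∀ (i : ν) (ℓ' : ℕ) [Fact ℓ'.Prime], GK K₀ →* Matrix.GeneralLinearGroup (Fin (r i)) ℚ_[ℓ'])
        (F : ν → HeightOneSpectrum (𝓞 K₀) → ℤ[X]) (H : ν → Multiset ℕ),
        (∀ i, StrictlyCompatible T (V i) (F i)) →
        -- positive lower density
        (∀ n, (∀ i, IsRoot (A n) T (F i) (H i)) →
          0 < lowerDensity (fun v₀ : HeightOneSpectrum (𝓞 K₀) => ∀ i, Ordinary (V i) (H i) v₀) ∧
          MotSystem.admProportion (A n) / (Module.finrank K₀ (K n) : ℝ) ≤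
            lowerDensity (fun v₀ : HeightOneSpectrum (𝓞 K₀) => ∀ i, Ordinary (V i) (H i) v₀)) ∧
        -- the common set of places
        ((∀ i, ∀ᶠ n in atTop, IsRoot (A n) T (F i) (H i)) →
          {v₀ ∈ P | ¬ ∀ i, Ordinary (V i) (H i) v₀}.Finite) := by
  have hd : ∀ n, (0 : ℝ) < (Module.finrank K₀ (K n) : ℝ) := fun n => by
    have : FiniteDimensional K₀ (K n) := Module.Finite.of_restrictScalars_finite ℚ K₀ (K n)
    exact_mod_cast Module.finrank_pos
  have hpos : ∀ n, 0 < MotSystem.admProportion (A n) / (Module.finrank K₀ (K n) : ℝ) :=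
    fun n => div_pos (MotSystem.admProportion_pos (A n) (hγ n)) (hd n)
  have hlow := fun n => lower_below (K₀ := K₀) (A n) (χ n) (S n) (hA n)
  obtain ⟨P, hinf, hdens, hfin⟩ := diagonal (fun n => Below K₀ (A n) (S n))
    (fun n => lt_of_lt_of_le (hpos n) (hlow n)) c (fun n => (hc n).trans (hlow n))
  -- a good place is ordinary
  have hord : ∀ (T : Finset ℕ) (r : ℕ)
      (V : ∀ (ℓ' : ℕ) [Fact ℓ'.Prime], GK K₀ →* Matrix.GeneralLinearGroup (Fin r) ℚ_[ℓ'])
      (F : HeightOneSpectrum (𝓞 K₀) → ℤ[X]) (H : Multiset ℕ), StrictlyCompatible T V F →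
      ∀ n, IsRoot (A n) T F H → ∀ v₀, Below K₀ (A n) (S n) v₀ → Ideal.absNorm v₀.asIdeal ∉ T →
        Ordinary V H v₀ := by
    rintro T r V F H hV n hF v₀ ⟨v, h0, hg⟩ hT
    have e := under_norm v hg.1 v₀ h0
    refine ordinary_of T V F H hV v₀ ⟨e ▸ hg.1, hT⟩ ?_
    exact newton_of_root (A n) (χ n) (S n) (hA n) hF v₀ v h0 hg (e ▸ hT)
  refine ⟨P, hinf, hdens, fun T ν _ r V F H hV => ⟨fun n hF => ?_, fun hF => ?_⟩⟩
  · have key : MotSystem.admProportion (A n) / (Module.finrank K₀ (K n) : ℝ) ≤
        lowerDensity (fun v₀ : HeightOneSpectrum (𝓞 K₀) => ∀ i, Ordinary (V i) (H i) v₀) := by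
      refine (hlow n).trans (lowerDensity_le_of_finite _ _ T ?_)
      intro v₀ hv₀ hT i
      exact hord T (r i) (V i) (F i) (H i) (hV i) n (hF i) v₀ hv₀ hT
    exact ⟨lt_of_lt_of_le (hpos n) key, key⟩
  · obtain ⟨n₀, hn₀⟩ := eventually_atTop.mp (eventually_all.mpr hF)
    refine ((hfin n₀).union (finite_norm_mem (K := K₀) T)).subset ?_
    rintro v₀ ⟨hv, hno⟩
    by_contra hcon
    rw [Set.mem_union, not_or] at hcon
    obtain ⟨h1, h2⟩ := hcon
    have h2' : Ideal.absNorm v₀.asIdeal ∉ T := h2
    obtain ⟨n, hn, hb⟩ : ∃ n, n₀ ≤ n ∧ Below K₀ (A n) (S n) v₀ := by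
      by_contra h3
      push Not at h3
      exact h1 ⟨hv, h3⟩
    exact hno fun i => hord T (r i) (V i) (F i) (H i) (hV i) n (hn₀ n hn i) v₀ hb h2'

end Pool.Agent.Results.MP_db07cb_ag.TensorConstructions
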