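import Pool.Agent.W5h69.TR.Pair

/-!
# Ordinary places and torus actions of complexity at most `n`

Let `k` be a number field. For a smooth projective variety `X` over `k`, an integer `c ≥ 0` and a place
`v` of good reduction let `δ_v(X)(c)` be the sum of the squares of the Hodge-Tate weights of
`H^(2c)(X) ⊕ H^(2c+1)(X)` minus the sum of the squares of the Newton slopes at `v`. As the Newton polygon
lies above the Hodge polygon and has the same end points, `δ_v(X)(c) ≥ 0`, and `δ_v(X)(c) = 0` if and
only if `v` is ordinary for `H^(2c)(X)` and for `H^(2c+1)(X)`. As the end points are the same, Tate twists
do not change the difference of the sums of squares; so the Laurent polynomials `∑ δ_v(X)(c) L^c` are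
compatible with blow-ups, and they extend, by the theorem of Bittner, to an additive invariant of all
separated schemes of finite type, with coefficients in the functions of `v` modulo the functions with
finite support.

Let `X` be a closed subscheme of an affine space which is stable under a torus acting diagonally. It is
of complexity at most `n` if each stratum of `X` (given by the vanishing and non-vanishing of the
coordinates) has dimension at most `n` plus the dimension of the orbits in the stratum. There is no
restriction on the dimension of `X` and on its singularities.

Every finite family of smooth projective varieties of dimension at most `n` has infinitely many common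
ordinary places if and only if for every finite family of torus schemes `X` of complexity at most `n`, or
of schemes built from them by closed-open decompositions, and of integers `c` the functions
`v ↦ δ_v(X)(c)` have infinitely many common zeros. Explicit members of this class are the schemes given
by `c` linearly independent equations with at most `c + n + 1` monomials altogether, also with additional
equations with two terms, and the inverse images of the cones of dimension at most `n + 1` under the
monomial maps between affine spaces.

The theorem on torus actions is due to helper38, the systems in few monomials to helper38 and helper68,
the invariant `δ` and its common zeros to helper93 (`MP_db07cb_ag/CommonZeros`).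
-/

set_option autoImplicit false

open CategoryTheory AlgebraicGeometry Pool.Agent.Y116.UV Pool.Agent.W5h93.EV Pool.Agent.W5h93.EX
  Pool.Agent.W5h38.TV Pool.Agent.W5h68.SP Pool.Agent.W5h69.TR

namespace Pool.Agent.Results.MP_db07cb_ag.TorusActions

/-- **Ordinary places and torus actions of complexity at most `n`.** -/
theorem result (k : Type) [Field k] [NumberField k] (ι : Type) [Infinite ι] (D : SlopeData k ι)
    (Q : Sch k → Prop) (hQ : IsClass Q) (hD : D.IsSlope Q) (δ : Sch k → ℤ → ι → ℚ)
    (hδ : D.IsDefect Q δ) (n : ℕ) :
    (CommonZerosOn δ (Built n) → D.Common Q n) ∧
      (ModelsIn Q n → (D.Common Q n ↔ CommonZerosOn δ (Built n))) ∧
      Cones (k := k) n (Built n) ∧ Sparse (k := k) n (Built n) :=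
  ⟨common_of_builtZeros hQ hD hδ, fun hM => ⟨builtZeros_of_common hQ hD hδ hM,
    common_of_builtZeros hQ hD hδ⟩, cones_built n, sparse_built n⟩

end Pool.Agent.Results.MP_db07cb_ag.TorusActions
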